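import Pool.Agent.Zk33.HF.Defs

/-!
The cells of a square lattice of mesh `ρ`.
-/

set_option autoImplicit false

namespace Pool.Agent.Zk17.HF

open MeasureTheory

/-- the index of the cell of mesh `ρ` which contains `z` -/
noncomputable def ix (ρ : ℝ) (z : ℂ) : ℤ × ℤ := (⌊z.re / ρ⌋, ⌊z.im / ρ⌋)

lemma meas_ix (ρ : ℝ) : Measurable (ix ρ) := by
  unfold ix
  exact ((Complex.measurable_re.div_const ρ).floor).prodMk ((Complex.measurable_im.div_const ρ).floor)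

lemma ix_dist {ρ : ℝ} (hρ : 0 < ρ) {z w : ℂ} (h : ix ρ z = ix ρ w) : dist z w ≤ 3 / 2 * ρ := by
  have h1 : ⌊z.re / ρ⌋ = ⌊w.re / ρ⌋ := congrArg Prod.fst h
  have h2 : ⌊z.im / ρ⌋ = ⌊w.im / ρ⌋ := congrArg Prod.snd h
  have h3 : |z.re / ρ - w.re / ρ| < 1 := Int.abs_sub_lt_one_of_floor_eq_floor h1
  have h4 : |z.im / ρ - w.im / ρ| < 1 := Int.abs_sub_lt_one_of_floor_eq_floor h2
  rw [← sub_div, abs_div, abs_of_pos hρ, div_lt_one hρ] at h3 h4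
  rw [Complex.dist_eq_re_im]
  rw [Real.sqrt_le_iff]
  refine ⟨by positivity, ?_⟩
  have h5 : (z.re - w.re) ^ 2 ≤ ρ ^ 2 := by
    rw [← sq_abs]
    exact pow_le_pow_left₀ (abs_nonneg _) h3.le 2
  have h6 : (z.im - w.im) ^ 2 ≤ ρ ^ 2 := by
    rw [← sq_abs]
    exact pow_le_pow_left₀ (abs_nonneg _) h4.le 2
  nlinarith [sq_nonneg ρ]

lemma fin_cells {ρ R : ℝ} (hρ : 0 < ρ) {S : Set ℂ} (hS : S ⊆ Metric.closedBall 0 R) : (ix ρ '' S).Finite := by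
  refine Set.Finite.subset ((Finset.Icc ⌊-R / ρ⌋ ⌊R / ρ⌋ ×ˢ Finset.Icc ⌊-R / ρ⌋ ⌊R / ρ⌋ : Finset (ℤ × ℤ)).finite_toSet) ?_
  rintro _ ⟨z, hz, rfl⟩
  have h1 : ‖z‖ ≤ R := by simpa using hS hz
  have h2 := (abs_le.1 ((Complex.abs_re_le_norm z).trans h1))
  have h3 := (abs_le.1 ((Complex.abs_im_le_norm z).trans h1))
  simp only [Finset.coe_product, Set.mem_prod, Finset.mem_coe, Finset.mem_Icc, ix]
  refine ⟨⟨Int.floor_mono ?_, Int.floor_mono ?_⟩, Int.floor_mono ?_, Int.floor_mono ?_⟩ <;>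
    exact div_le_div_of_nonneg_right (by linarith [h2.1, h2.2, h3.1, h3.2]) hρ.le

end Pool.Agent.Zk17.HF
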