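import Mathlib

/-!
# Frostman's lemma for dyadic squares
-/

set_option autoImplicit false

open Finset

namespace Pool.Agent.Zk17.HF

/-- index of the dyadic square of side `2 ^ l` containing `x` -/
def idx (l : ℕ) (x : ℤ × ℤ) : ℤ × ℤ := (x.1 / 2 ^ l, x.2 / 2 ^ l)

lemma idx_nest {l l' : ℕ} (h : l ≤ l') {x y : ℤ × ℤ} (hxy : idx l x = idx l y) :
    idx l' x = idx l' y := by
  obtain ⟨m, rfl⟩ := Nat.exists_eq_add_of_le h
  have key : ∀ z : ℤ × ℤ, idx (l + m) z = idx m (idx l z) := by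
    intro z
    unfold idx
    rw [pow_add, Int.ediv_ediv_of_nonneg (by positivity), Int.ediv_ediv_of_nonneg (by positivity)]
  rw [key, key, hxy]

/-- mass of the square with index `a` -/
noncomputable def mass (F : Finset (ℤ × ℤ)) (ν : (ℤ × ℤ) → ℝ) (l : ℕ) (a : ℤ × ℤ) : ℝ :=
  ∑ y ∈ F with idx l y = a, ν y

lemma frostman_greedy (k : ℕ) (cap : ℕ → ℝ) (hcap : ∀ l, 0 ≤ cap l) (F : Finset (ℤ × ℤ)) :
    ∃ ν : (ℤ × ℤ) → ℝ, (∀ y, 0 ≤ ν y) ∧ (∀ l ≤ k, ∀ a, mass F ν l a ≤ cap l) ∧
      ∀ y ∈ F, ∃ l ≤ k, mass F ν l (idx l y) = cap l := by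
  classical
  induction F using Finset.induction_on with
  | empty => exact ⟨fun _ => 0, fun _ => le_rfl, fun l _ a => by simpa [mass] using hcap l, by simp⟩
  | insert x F hx ih =>
    obtain ⟨ν, h0, h1, h2⟩ := ih
    obtain ⟨l0, hl0, hmin⟩ := Finset.exists_min_image (Finset.range (k + 1))
      (fun l => cap l - mass F ν l (idx l x)) ⟨0, by simp⟩
    set δ : ℝ := cap l0 - mass F ν l0 (idx l0 x) with hδ
    have hl0' : l0 ≤ k := Nat.lt_succ_iff.1 (Finset.mem_range.1 hl0)
    have hδ0 : 0 ≤ δ := sub_nonneg.2 (h1 l0 hl0' _)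
    set ν' : (ℤ × ℤ) → ℝ := fun y => if y = x then δ else ν y with hν'
    have hold : ∀ l a, ∑ y ∈ F with idx l y = a, ν' y = mass F ν l a := by
      intro l a
      unfold mass
      refine Finset.sum_congr rfl fun y hy => ?_
      have : y ≠ x := fun h => hx (h ▸ (Finset.mem_filter.1 hy).1)
      simp [hν', this]
    have hmass : ∀ l a, mass (insert x F) ν' l a = mass F ν l a + if idx l x = a then δ else 0 := by
      intro l a
      unfold mass
      rw [Finset.filter_insert]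
      split_ifs with h
      · rw [Finset.sum_insert (by simp [hx]), hold]
        simp only [hν', if_true]
        unfold mass
        ring
      · rw [hold, add_zero]
        rfl
    refine ⟨ν', fun y => ?_, fun l hl a => ?_, fun y hy => ?_⟩
    · simp only [hν']
      split_ifs
      · exact hδ0
      · exact h0 y
    · rw [hmass]
      split_ifs with h
      · subst h
        have := hmin l (Finset.mem_range.2 (Nat.lt_succ_iff.2 hl))
        linarith
      · rw [add_zero]; exact h1 l hl a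
    · rcases Finset.mem_insert.1 hy with rfl | hy
      · refine ⟨l0, hl0', ?_⟩
        rw [hmass, if_pos rfl]
        linarith
      · obtain ⟨l, hl, ht⟩ := h2 y hy
        refine ⟨l, hl, ?_⟩
        rw [hmass]
        split_ifs with h
        · have := hmin l (Finset.mem_range.2 (Nat.lt_succ_iff.2 hl))
          rw [h, ht] at this
          have h3 : δ = 0 := by linarith
          rw [ht, h3, add_zero]
        · rw [ht, add_zero]

/-- **Frostman's lemma** (as `Pool.Agent.H380R3.ARW.frostman`, for pairs of integers) -/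
lemma frostman (k : ℕ) (cap : ℕ → ℝ) (hcap : ∀ l, 0 ≤ cap l) (F : Finset (ℤ × ℤ)) :
    ∃ ν : (ℤ × ℤ) → ℝ, (∀ y, 0 ≤ ν y) ∧
      (∀ l ≤ k, ∀ a, ∑ y ∈ F with idx l y = a, ν y ≤ cap l) ∧
      ∃ C : Finset (ℕ × (ℤ × ℤ)), (∀ y ∈ F, ∃ c ∈ C, idx c.1 y = c.2) ∧
        ∑ c ∈ C, cap c.1 ≤ ∑ y ∈ F, ν y := by
  classical
  obtain ⟨ν0, h0, h1, h2⟩ := frostman_greedy k cap hcap F
  -- maximal tight level
  have hmax : ∀ y ∈ F, ∃ l ≤ k, mass F ν0 l (idx l y) = cap l ∧
      ∀ l' ≤ k, mass F ν0 l' (idx l' y) = cap l' → l' ≤ l := by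
    intro y hy
    have hne : ((Finset.range (k + 1)).filter
        fun l => mass F ν0 l (idx l y) = cap l).Nonempty := by
      obtain ⟨l, hl, ht⟩ := h2 y hy
      exact ⟨l, Finset.mem_filter.2 ⟨Finset.mem_range.2 (Nat.lt_succ_iff.2 hl), ht⟩⟩
    obtain ⟨l, hl, hm⟩ := Finset.exists_max_image _ id hne
    obtain ⟨hl1, hl2⟩ := Finset.mem_filter.1 hl
    refine ⟨l, Nat.lt_succ_iff.1 (Finset.mem_range.1 hl1), hl2, fun l' hl' ht => ?_⟩
    exact hm l' (Finset.mem_filter.2 ⟨Finset.mem_range.2 (Nat.lt_succ_iff.2 hl'), ht⟩)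
  choose! lev hlev1 hlev2 hlev3 using hmax
  set τ : (ℤ × ℤ) → ℕ × (ℤ × ℤ) := fun y => (lev y, idx (lev y) y) with hτ
  have hfib : ∀ y' ∈ F, ∀ y ∈ F, idx (lev y') y = idx (lev y') y' → τ y = τ y' := by
    intro y' hy' y hy h
    have hle : lev y' ≤ lev y := by
      refine hlev3 y hy _ (hlev1 y' hy') ?_
      rw [h]; exact hlev2 y' hy'
    have h3 : idx (lev y) y = idx (lev y) y' := idx_nest hle h
    have hge : lev y ≤ lev y' := by
      refine hlev3 y' hy' _ (hlev1 y hy) ?_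
      rw [← h3]; exact hlev2 y hy
    have heq : lev y = lev y' := le_antisymm hge hle
    simp only [hτ, heq, h]
  refine ⟨ν0, h0, fun l hl a => h1 l hl a, F.image τ, ?_, ?_⟩
  · intro y hy
    exact ⟨τ y, Finset.mem_image_of_mem _ hy, rfl⟩
  · rw [← Finset.sum_fiberwise_of_maps_to (g := τ) (t := F.image τ)
      (fun y hy => Finset.mem_image_of_mem _ hy)]
    refine le_of_eq (Finset.sum_congr rfl fun c hc => ?_)
    obtain ⟨y', hy', rfl⟩ := Finset.mem_image.1 hc
    have h6 := hlev2 y' hy'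
    simp only [hτ]
    rw [← h6]
    unfold mass
    refine Finset.sum_congr ?_ fun _ _ => rfl
    ext y
    simp only [Finset.mem_filter]
    constructor
    · rintro ⟨hy, h⟩
      exact ⟨hy, hfib y' hy' y hy h⟩
    · rintro ⟨hy, h⟩
      refine ⟨hy, ?_⟩
      have h7 : lev y = lev y' := congrArg Prod.fst h
      have h8 : idx (lev y) y = idx (lev y') y' := congrArg Prod.snd h
      rw [← h8, h7]

end Pool.Agent.Zk17.HF
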