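import Pool.Agent.Zk17.HF.Cell
import Pool.Agent.Zk17.HF.Fros0

/-!
Discrete measures of bounded energy on a compact set of positive Hausdorff content.
-/

set_option autoImplicit false

namespace Pool.Agent.Zk17.HF

open Pool.Agent.Zk33.HF Finset

lemma sum_image_le_sum {α β : Type} [DecidableEq β] (C : Finset α) (φ : α → β) (f : β → ℝ) (hf : ∀ p, 0 ≤ f p) :
    ∑ p ∈ C.image φ, f p ≤ ∑ c ∈ C, f (φ c) := by
  rw [← Finset.sum_fiberwise_of_maps_to (g := φ) (t := C.image φ) (fun y hy => Finset.mem_image_of_mem _ hy)]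
  refine Finset.sum_le_sum fun p hp => ?_
  obtain ⟨c, hc, rfl⟩ := Finset.mem_image.1 hp
  exact Finset.single_le_sum (f := fun x => f (φ x)) (fun i _ => hf _) (Finset.mem_filter.2 ⟨hc, rfl⟩)

lemma idx_near {l : ℕ} {a b : ℤ} (h : |a - b| ≤ 2 ^ l) : |a / 2 ^ l - b / 2 ^ l| ≤ 1 := by
  have h2 : (0 : ℤ) < 2 ^ l := by positivity
  obtain ⟨h3, h4⟩ := abs_le.1 h
  rw [abs_le]
  constructor
  · have h5 : b ≤ a + 1 * 2 ^ l := by linarith
    have h6 : b / 2 ^ l ≤ (a + 1 * 2 ^ l) / 2 ^ l := Int.ediv_le_ediv h2 h5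
    rw [Int.add_mul_ediv_right _ _ h2.ne'] at h6
    linarith
  · have h5 : a ≤ b + 1 * 2 ^ l := by linarith
    have h6 : a / 2 ^ l ≤ (b + 1 * 2 ^ l) / 2 ^ l := Int.ediv_le_ediv h2 h5
    rw [Int.add_mul_ediv_right _ _ h2.ne'] at h6
    linarith

lemma floor_near {ρ r : ℝ} (hρ : 0 < ρ) {l : ℕ} (hr : r ≤ 2 ^ l * ρ) {a b : ℝ} (h : |a - b| < r) :
    |⌊a / ρ⌋ - ⌊b / ρ⌋| ≤ 2 ^ l := by
  have h0 : |a / ρ - b / ρ| < 2 ^ l := by
    rw [← sub_div, abs_div, abs_of_pos hρ, div_lt_iff₀ hρ]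
    linarith
  obtain ⟨h1, h2⟩ := abs_lt.1 h0
  have h3 := Int.floor_le (a / ρ)
  have h4 := Int.lt_floor_add_one (a / ρ)
  have h5 := Int.floor_le (b / ρ)
  have h6 := Int.lt_floor_add_one (b / ρ)
  rw [abs_le]
  constructor
  · have : (-(2 ^ l) : ℝ) - 1 < ((⌊a / ρ⌋ - ⌊b / ρ⌋ : ℤ) : ℝ) := by push_cast; linarith
    have h7 : (((-(2 ^ l) - 1 : ℤ)) : ℝ) < ((⌊a / ρ⌋ - ⌊b / ρ⌋ : ℤ) : ℝ) := by push_cast at this ⊢; linarith
    have h8 := Int.cast_lt.1 h7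
    omega
  · have : ((⌊a / ρ⌋ - ⌊b / ρ⌋ : ℤ) : ℝ) < 2 ^ l + 1 := by push_cast; linarith
    have h7 : ((⌊a / ρ⌋ - ⌊b / ρ⌋ : ℤ) : ℝ) < ((2 ^ l + 1 : ℤ) : ℝ) := by push_cast at this ⊢; linarith
    have h8 := Int.cast_lt.1 h7
    omega

/-- points at distance less than `2 ^ l ρ` have neighbouring squares of side `2 ^ l ρ` -/
lemma idx_close {ρ : ℝ} (hρ : 0 < ρ) {l : ℕ} {x y : ℂ} (h : dist x y < 2 ^ l * ρ) :
    idx l (ix ρ y) ∈ ((Finset.Icc (-1 : ℤ) 1) ×ˢ (Finset.Icc (-1 : ℤ) 1)).image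
      (fun d => ((idx l (ix ρ x)).1 + d.1, (idx l (ix ρ x)).2 + d.2)) := by
  have h1 : |y.re - x.re| < 2 ^ l * ρ := by
    refine lt_of_le_of_lt ?_ h
    rw [dist_comm, Complex.dist_eq, ← Complex.sub_re]
    exact Complex.abs_re_le_norm _
  have h2 : |y.im - x.im| < 2 ^ l * ρ := by
    refine lt_of_le_of_lt ?_ h
    rw [dist_comm, Complex.dist_eq, ← Complex.sub_im]
    exact Complex.abs_im_le_norm _
  have h3 := idx_near (floor_near hρ le_rfl h1)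
  have h4 := idx_near (floor_near hρ le_rfl h2)
  obtain ⟨h5, h6⟩ := abs_le.1 h3
  obtain ⟨h7, h8⟩ := abs_le.1 h4
  refine Finset.mem_image.2 ⟨((idx l (ix ρ y)).1 - (idx l (ix ρ x)).1, (idx l (ix ρ y)).2 - (idx l (ix ρ x)).2), ?_, ?_⟩
  · simp only [Finset.mem_product, Finset.mem_Icc]
    exact ⟨⟨h5, h6⟩, h7, h8⟩
  · exact Prod.ext (by simp) (by simp)

/-- sum of the geometric series -/
lemma geo {r ρ : ℝ} (hr : 0 < r) (hρ : 0 < ρ) (k : ℕ) :
    ∑ l ∈ Finset.range (k + 1), ((2 : ℝ) ^ l * ρ) ^ r ≤ (2 ^ k * ρ) ^ r / (1 - 2 ^ (-r)) := by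
  have h2 : (2 : ℝ) ^ (-r) < 1 := Real.rpow_lt_one_of_one_lt_of_neg (by norm_num) (by linarith)
  have h1 : 0 < 1 - (2 : ℝ) ^ (-r) := by linarith
  have h3 : (2 : ℝ) ^ (-r) * 2 ^ r = 1 := by
    rw [← Real.rpow_add (by norm_num), neg_add_cancel, Real.rpow_zero]
  induction k with
  | zero =>
    simp only [zero_add, Finset.range_one, Finset.sum_singleton, pow_zero, one_mul]
    rw [le_div_iff₀ h1]
    have : 0 ≤ ρ ^ r := by positivity
    have h4 : 0 ≤ (2 : ℝ) ^ (-r) := by positivity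
    nlinarith
  | succ k ih =>
    rw [Finset.sum_range_succ]
    have h5 : ((2 : ℝ) ^ (k + 1) * ρ) ^ r = 2 ^ r * (2 ^ k * ρ) ^ r := by
      rw [pow_succ, mul_assoc, mul_comm (2 : ℝ) ρ, ← mul_assoc, Real.mul_rpow (by positivity) (by norm_num), mul_comm]
    rw [h5, le_div_iff₀ h1]
    rw [le_div_iff₀ h1] at ih
    have h6 : 0 ≤ (2 ^ k * ρ) ^ r := by positivity
    nlinarith [h3, h6]

/-- the dyadic decomposition of the kernel -/
lemma dyadic {e ρ d : ℝ} (he : 0 ≤ e) (hρ : 0 < ρ) {k : ℕ} (hd : d < 2 ^ k * ρ) :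
    (max d ρ) ^ (-e) ≤ ∑ l ∈ Finset.range (k + 1), if d < 2 ^ l * ρ then 2 ^ e * ((2 : ℝ) ^ l * ρ) ^ (-e) else 0 := by
  classical
  have hex : ∃ l : ℕ, d < 2 ^ l * ρ := ⟨k, hd⟩
  have h1 := Nat.find_spec hex
  have h2 : Nat.find hex ≤ k := Nat.find_min' hex hd
  have h3 : (if d < 2 ^ (Nat.find hex) * ρ then 2 ^ e * ((2 : ℝ) ^ (Nat.find hex) * ρ) ^ (-e) else 0) ≤
      ∑ l ∈ Finset.range (k + 1), if d < 2 ^ l * ρ then 2 ^ e * ((2 : ℝ) ^ l * ρ) ^ (-e) else 0 :=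
    Finset.single_le_sum (f := fun l : ℕ => if d < 2 ^ l * ρ then 2 ^ e * ((2 : ℝ) ^ l * ρ) ^ (-e) else 0)
      (fun i _ => by
        show 0 ≤ (if d < 2 ^ i * ρ then 2 ^ e * ((2 : ℝ) ^ i * ρ) ^ (-e) else 0)
        split_ifs <;> positivity) (Finset.mem_range.2 (by omega))
  refine le_trans ?_ h3
  rw [if_pos h1]
  have h4 : (2 : ℝ) ^ e * (2 ^ (Nat.find hex) * ρ) ^ (-e) = ((2 ^ (Nat.find hex) * ρ) / 2) ^ (-e) := by
    rw [Real.div_rpow (by positivity) (by norm_num), Real.rpow_neg (by norm_num : (0 : ℝ) ≤ 2) e, div_inv_eq_mul, mul_comm]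
  rw [h4]
  refine Real.rpow_le_rpow_of_nonpos (by positivity) ?_ (by linarith)
  rcases Nat.eq_zero_or_pos (Nat.find hex) with h | h
  · rw [h, pow_zero, one_mul]
    exact le_trans (by linarith) (le_max_right d ρ)
  · have h5 := Nat.find_min hex (Nat.sub_lt h one_pos)
    refine le_trans ?_ (le_max_left d ρ)
    rw [not_lt] at h5
    refine le_trans (le_of_eq ?_) h5
    obtain ⟨m, hm⟩ := Nat.exists_eq_succ_of_ne_zero h.ne'
    rw [hm, Nat.succ_eq_add_one, Nat.add_sub_cancel, pow_succ]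
    ring

/-- the potential of a measure with `ν (Q) ≤ (side) ^ s` -/
lemma potential {s e ρ : ℝ} (he : 0 ≤ e) (hes : e < s) (hρ : 0 < ρ) {k : ℕ} {V : Finset (ℤ × ℤ)} {ν : ℤ × ℤ → ℝ}
    (hν0 : ∀ y, 0 ≤ ν y) (hν : ∀ l ≤ k, ∀ a, ∑ y ∈ V with idx l y = a, ν y ≤ (2 ^ l * ρ) ^ s)
    {x : ℤ × ℤ → ℂ} (hx : ∀ u ∈ V, ix ρ (x u) = u) {u : ℤ × ℤ} (hu : u ∈ V)
    (hd : ∀ v ∈ V, dist (x u) (x v) < 2 ^ k * ρ) :
    ∑ v ∈ V, ν v * (max (dist (x u) (x v)) ρ) ^ (-e) ≤ 9 * 2 ^ e * ((2 ^ k * ρ) ^ (s - e) / (1 - 2 ^ (-(s - e)))) := by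
  classical
  have h1 : ∑ v ∈ V, ν v * (max (dist (x u) (x v)) ρ) ^ (-e) ≤
      ∑ l ∈ Finset.range (k + 1), ∑ v ∈ V with dist (x u) (x v) < 2 ^ l * ρ, ν v * (2 ^ e * ((2 : ℝ) ^ l * ρ) ^ (-e)) := by
    have : ∀ l ∈ Finset.range (k + 1), ∑ v ∈ V with dist (x u) (x v) < 2 ^ l * ρ, ν v * (2 ^ e * ((2 : ℝ) ^ l * ρ) ^ (-e)) =
        ∑ v ∈ V, ν v * (if dist (x u) (x v) < 2 ^ l * ρ then 2 ^ e * ((2 : ℝ) ^ l * ρ) ^ (-e) else 0) := by
      intro l _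
      rw [Finset.sum_filter]
      refine Finset.sum_congr rfl fun v _ => ?_
      split_ifs <;> simp
    rw [Finset.sum_congr rfl this, Finset.sum_comm]
    refine Finset.sum_le_sum fun v hv => ?_
    rw [← Finset.mul_sum]
    exact mul_le_mul_of_nonneg_left (dyadic he hρ (hd v hv)) (hν0 v)
  refine h1.trans ?_
  have h2 : ∀ l ∈ Finset.range (k + 1), ∑ v ∈ V with dist (x u) (x v) < 2 ^ l * ρ, ν v * (2 ^ e * ((2 : ℝ) ^ l * ρ) ^ (-e)) ≤
      9 * 2 ^ e * ((2 : ℝ) ^ l * ρ) ^ (s - e) := by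
    intro l hl
    rw [← Finset.sum_mul]
    have h3 : ∑ v ∈ V with dist (x u) (x v) < 2 ^ l * ρ, ν v ≤ 9 * (2 ^ l * ρ) ^ s := by
      set A := ((Finset.Icc (-1 : ℤ) 1) ×ˢ (Finset.Icc (-1 : ℤ) 1)).image
        (fun d => ((idx l u).1 + d.1, (idx l u).2 + d.2)) with hA
      have h4 : ∀ v ∈ V.filter (fun v => dist (x u) (x v) < 2 ^ l * ρ), idx l v ∈ A := by
        intro v hv
        obtain ⟨hv1, hv2⟩ := Finset.mem_filter.1 hv
        have h5 := idx_close hρ hv2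
        rwa [hx v hv1, hx u hu] at h5
      rw [← Finset.sum_fiberwise_of_maps_to h4]
      have h6 : ∀ a ∈ A, ∑ y ∈ V.filter (fun v => dist (x u) (x v) < 2 ^ l * ρ) with idx l y = a, ν y ≤ (2 ^ l * ρ) ^ s := by
        intro a _
        refine le_trans (Finset.sum_le_sum_of_subset_of_nonneg ?_ fun i _ _ => hν0 i)
          (hν l (Nat.lt_succ_iff.1 (Finset.mem_range.1 hl)) a)
        intro y hy
        simp only [Finset.mem_filter] at hy ⊢
        exact ⟨hy.1.1, hy.2⟩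
      refine (Finset.sum_le_sum h6).trans ?_
      rw [Finset.sum_const, nsmul_eq_mul]
      have h7 : A.card ≤ 9 := by
        refine Finset.card_image_le.trans ?_
        rw [Finset.card_product]
        decide
      have h8 : (A.card : ℝ) ≤ 9 := by exact_mod_cast h7
      exact mul_le_mul_of_nonneg_right h8 (by positivity)
    have h9 : ((2 : ℝ) ^ l * ρ) ^ (s - e) = (2 ^ l * ρ) ^ s * (2 ^ l * ρ) ^ (-e) := by
      rw [sub_eq_add_neg, Real.rpow_add (by positivity)]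
    rw [h9]
    have h10 : 0 ≤ (2 : ℝ) ^ e * (2 ^ l * ρ) ^ (-e) := by positivity
    calc (∑ v ∈ V with dist (x u) (x v) < 2 ^ l * ρ, ν v) * (2 ^ e * (2 ^ l * ρ) ^ (-e))
        ≤ (9 * (2 ^ l * ρ) ^ s) * (2 ^ e * (2 ^ l * ρ) ^ (-e)) := mul_le_mul_of_nonneg_right h3 h10
      _ = _ := by ring
  refine (Finset.sum_le_sum h2).trans ?_
  rw [← Finset.mul_sum]
  exact mul_le_mul_of_nonneg_left (geo (by linarith) hρ k) (by positivity)

/-- the constant -/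
noncomputable def KE (s e B : ℝ) : ℝ := 9 * 2 ^ e * (B ^ (s - e) / (1 - 2 ^ (-(s - e))))

lemma KE_pos {s e B : ℝ} (hes : e < s) (hB : 0 < B) : 0 < KE s e B := by
  have h2 : (2 : ℝ) ^ (-(s - e)) < 1 := Real.rpow_lt_one_of_one_lt_of_neg (by norm_num) (by linarith)
  have h3 : 0 < 1 - (2 : ℝ) ^ (-(s - e)) := by linarith
  unfold KE
  positivity

theorem wt_content {s c b t R : ℝ} (hc : 0 < c) (hb : 0 ≤ b) (ht : 0 ≤ t) (h : b + t < s) (hR : 0 < R) :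
    ∃ E : ℝ, 0 < E ∧ ∀ S : Set ℂ, IsCompact S → S ⊆ Metric.closedBall 0 R → Content s c S →
      ∀ ρ : ℝ, 0 < ρ → ρ ≤ 1 → Wt S b t E E ρ := by
  classical
  set B : ℝ := 2 * (2 * R + 2) with hB
  have hB0 : 0 < B := by positivity
  have hK1 := KE_pos (s := s) (e := b) (B := B) (by linarith) hB0
  have hK2 := KE_pos (s := s) (e := b + t) (B := B) h hB0
  refine ⟨max (KE s b B) (KE s (b + t) B) / c, by positivity, ?_⟩
  intro S _ hSR hcont ρ hρ hρ1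
  -- the level
  have hlev : ∃ k : ℕ, 2 * R + 2 ≤ 2 ^ k * ρ ∧ 2 ^ k * ρ ≤ B := by
    have hex : ∃ k : ℕ, 2 * R + 2 ≤ 2 ^ k * ρ := by
      obtain ⟨k, hk⟩ := pow_unbounded_of_one_lt ((2 * R + 2) / ρ) (by norm_num : (1 : ℝ) < 2)
      exact ⟨k, by rw [div_lt_iff₀ hρ] at hk; exact hk.le⟩
    refine ⟨Nat.find hex, Nat.find_spec hex, ?_⟩
    rcases Nat.eq_zero_or_pos (Nat.find hex) with h0 | h0
    · rw [h0, pow_zero, one_mul]
      linarith
    · have h5 := Nat.find_min hex (Nat.sub_lt h0 one_pos)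
      rw [not_le] at h5
      obtain ⟨m, hm⟩ := Nat.exists_eq_succ_of_ne_zero h0.ne'
      rw [hm, Nat.succ_eq_add_one, Nat.add_sub_cancel] at h5
      rw [hm, Nat.succ_eq_add_one, pow_succ]
      linarith
  obtain ⟨k, hk1, hk2⟩ := hlev
  have hfin := fin_cells hρ hSR
  have hex : ∀ u : ℤ × ℤ, ∃ z : ℂ, u ∈ ix ρ '' S → z ∈ S ∧ ix ρ z = u := by
    intro u
    by_cases hu : u ∈ ix ρ '' S
    · obtain ⟨z, hz, h⟩ := hu
      exact ⟨z, fun _ => ⟨hz, h⟩⟩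
    · exact ⟨0, fun h => absurd h hu⟩
  choose x hx using hex
  set V := hfin.toFinset with hV
  have hmem : ∀ u ∈ V, x u ∈ S ∧ ix ρ (x u) = u := fun u hu => hx u (hfin.mem_toFinset.1 hu)
  obtain ⟨ν, hν0, hν1, C, hC1, hC2⟩ := frostman k (fun l => (2 ^ l * ρ) ^ s) (fun l => by positivity) V
  -- the mass
  set m : ℝ := ∑ y ∈ V, ν y with hm
  have hmc : c ≤ m := by
    refine le_trans ?_ hC2
    have h1 := hcont (C.image fun c : ℕ × (ℤ × ℤ) =>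
      ((⟨((c.2.1 : ℝ) + 1 / 2) * (2 ^ c.1 * ρ), ((c.2.2 : ℝ) + 1 / 2) * (2 ^ c.1 * ρ)⟩ : ℂ), (2 : ℝ) ^ c.1 * ρ)) ?_ ?_
    · exact h1.trans (sum_image_le_sum C _ (fun p : ℂ × ℝ => |p.2| ^ s) (fun p => by positivity) |>.trans' (by
        refine le_of_eq (Finset.sum_congr rfl fun p hp => ?_)
        obtain ⟨c', _, rfl⟩ := Finset.mem_image.1 hp
        simp only
        rw [abs_of_pos (by positivity)]) |>.trans (by
        refine le_of_eq (Finset.sum_congr rfl fun c' _ => ?_)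
        simp only
        rw [abs_of_pos (by positivity)]))
    · intro p hp
      obtain ⟨c', _, rfl⟩ := Finset.mem_image.1 hp
      simp only
      positivity
    · intro z hz
      obtain ⟨c', hc', hcz⟩ := hC1 (ix ρ z) (hfin.mem_toFinset.2 ⟨z, hz, rfl⟩)
      simp only [Set.mem_iUnion, exists_prop]
      refine ⟨_, Finset.mem_image_of_mem _ hc', ?_⟩
      simp only [Metric.mem_ball]
      have hL : (0 : ℝ) < 2 ^ c'.1 * ρ := by positivity
      have key : ∀ a : ℝ, ∀ n : ℤ, ⌊a / ρ⌋ / 2 ^ c'.1 = n → |a - ((n : ℝ) + 1 / 2) * (2 ^ c'.1 * ρ)| ≤ 1 / 2 * (2 ^ c'.1 * ρ) := by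
        intro a n hn
        have h2 : (0 : ℤ) < 2 ^ c'.1 := by positivity
        have h3 : n * 2 ^ c'.1 ≤ ⌊a / ρ⌋ := by rw [← hn]; exact Int.ediv_mul_le _ h2.ne'
        have h4 : ⌊a / ρ⌋ < (n + 1) * 2 ^ c'.1 := by rw [← hn]; exact Int.lt_ediv_add_one_mul_self _ h2
        have h5 : ((n * 2 ^ c'.1 : ℤ) : ℝ) ≤ a / ρ := Int.le_floor.1 h3
        have h6 : a / ρ < (((n + 1) * 2 ^ c'.1 : ℤ) : ℝ) := Int.floor_lt.1 h4
        rw [le_div_iff₀ hρ] at h5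
        rw [div_lt_iff₀ hρ] at h6
        push_cast at h5 h6
        rw [abs_le]
        constructor <;> nlinarith
      have h3 : |z.re - ((c'.2.1 : ℝ) + 1 / 2) * (2 ^ c'.1 * ρ)| ≤ 1 / 2 * (2 ^ c'.1 * ρ) := key _ _ (congrArg Prod.fst hcz)
      have h4 : |z.im - ((c'.2.2 : ℝ) + 1 / 2) * (2 ^ c'.1 * ρ)| ≤ 1 / 2 * (2 ^ c'.1 * ρ) := key _ _ (congrArg Prod.snd hcz)
      rw [Complex.dist_eq_re_im, Real.sqrt_lt' hL]
      have h5 := pow_le_pow_left₀ (abs_nonneg _) h3 2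
      have h6 := pow_le_pow_left₀ (abs_nonneg _) h4 2
      rw [sq_abs] at h5 h6
      nlinarith [sq_nonneg (2 ^ c'.1 * ρ), pow_pos hL 2]
  have hm0 : 0 < m := lt_of_lt_of_le hc hmc
  -- the energies
  have hen : ∀ e : ℝ, 0 ≤ e → e < s → ∑ i ∈ V, ∑ j ∈ V, (ν i / m) * (ν j / m) * (max (dist (x i) (x j)) ρ) ^ (-e) ≤
      KE s e B / c := by
    intro e he hes
    have h1 : ∀ i ∈ V, ∑ j ∈ V, (ν i / m) * (ν j / m) * (max (dist (x i) (x j)) ρ) ^ (-e) ≤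
        (ν i / m) * (KE s e B / m) := by
      intro i hi
      have h2 : ∑ j ∈ V, (ν i / m) * (ν j / m) * (max (dist (x i) (x j)) ρ) ^ (-e) =
          (ν i / m) * ((∑ j ∈ V, ν j * (max (dist (x i) (x j)) ρ) ^ (-e)) / m) := by
        rw [Finset.sum_div, Finset.mul_sum]
        refine Finset.sum_congr rfl fun j _ => ?_
        ring
      rw [h2]
      refine mul_le_mul_of_nonneg_left (div_le_div_of_nonneg_right ?_ hm0.le) (div_nonneg (hν0 i) hm0.le)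
      refine (potential he hes hρ hν0 hν1 (fun u hu => (hmem u hu).2) hi ?_).trans ?_
      · intro v hv
        have h3 : ‖x i‖ ≤ R := by simpa using hSR (hmem i hi).1
        have h4 : ‖x v‖ ≤ R := by simpa using hSR (hmem v hv).1
        have h5 : dist (x i) (x v) ≤ ‖x i‖ + ‖x v‖ := dist_le_norm_add_norm _ _
        linarith
      · unfold KE
        have h6 : (2 : ℝ) ^ (-(s - e)) < 1 := Real.rpow_lt_one_of_one_lt_of_neg (by norm_num) (by linarith)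
        refine mul_le_mul_of_nonneg_left (div_le_div_of_nonneg_right ?_ (by linarith)) (by positivity)
        exact Real.rpow_le_rpow (by positivity) hk2 (by linarith)
    refine (Finset.sum_le_sum h1).trans ?_
    rw [← Finset.sum_mul, ← Finset.sum_div, ← hm, div_self hm0.ne', one_mul]
    exact div_le_div_of_nonneg_left (KE_pos hes hB0).le hc hmc
  refine ⟨V, fun u => ν u / m, x, fun i _ => div_nonneg (hν0 i) hm0.le, fun i hi => (hmem i hi).1, ?_, ?_, ?_⟩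
  · rw [← Finset.sum_div, ← hm, div_self hm0.ne']
  · exact (hen b hb (by linarith)).trans (div_le_div_of_nonneg_right (le_max_left _ _) hc.le)
  · exact (hen (b + t) (add_nonneg hb ht) h).trans (div_le_div_of_nonneg_right (le_max_right _ _) hc.le)

end Pool.Agent.Zk17.HF
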