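import Pool.Agent.Zk17.HF.Cell

/-!
From a probability measure of finite energy to discrete measures of finite energy.
-/

set_option autoImplicit false

namespace Pool.Agent.Zk17.HF

open MeasureTheory ENNReal Pool.Agent.Zk33.HF

lemma four_max {ρ : ℝ} (hρ : 0 < ρ) {x y a b : ℂ} (h1 : ix ρ x = ix ρ a) (h2 : ix ρ y = ix ρ b) :
    dist x y ≤ 4 * max (dist a b) ρ := by
  have h3 := ix_dist hρ h1
  have h4 := ix_dist hρ h2
  have h5 : dist x y ≤ dist x a + dist a b + dist b y := dist_triangle4 x a b y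
  rw [dist_comm b y] at h5
  have h6 := le_max_left (dist a b) ρ
  have h7 := le_max_right (dist a b) ρ
  linarith

lemma meas_F (e : ℝ) : Measurable fun p : ℂ × ℂ => (edist p.1 p.2) ^ (-e) :=
  (measurable_edist).pow_const _

lemma energy {e : ℝ} (he : 0 ≤ e) (ν : Measure ℂ) [IsProbabilityMeasure ν] {M : ℝ} (hM : 0 ≤ M)
    (h : ∫⁻ x, ∫⁻ y, (edist x y) ^ (-e) ∂ν ∂ν ≤ ENNReal.ofReal M) {ρ : ℝ} (hρ : 0 < ρ) (V : Finset (ℤ × ℤ))
    (x : ℤ × ℤ → ℂ) (hx : ∀ u ∈ V, ix ρ (x u) = u) :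
    ∑ i ∈ V, ∑ j ∈ V, (ν (ix ρ ⁻¹' {i})).toReal * (ν (ix ρ ⁻¹' {j})).toReal * (max (dist (x i) (x j)) ρ) ^ (-e) ≤
      4 ^ e * M := by
  have hms : ∀ i : ℤ × ℤ, MeasurableSet (ix ρ ⁻¹' {i}) := fun i => meas_ix ρ (measurableSet_singleton i)
  have hpos : ∀ i j : ℤ × ℤ, 0 < max (dist (x i) (x j)) ρ := fun i j => lt_max_of_lt_right hρ
  rw [← ENNReal.ofReal_le_ofReal_iff (by positivity)]
  rw [← Finset.sum_product' V V fun i j =>
    (ν (ix ρ ⁻¹' {i})).toReal * (ν (ix ρ ⁻¹' {j})).toReal * (max (dist (x i) (x j)) ρ) ^ (-e)]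
  rw [ENNReal.ofReal_sum_of_nonneg fun p _ => by positivity]
  have h1 : ∀ p ∈ V ×ˢ V, ENNReal.ofReal ((ν (ix ρ ⁻¹' {p.1})).toReal * (ν (ix ρ ⁻¹' {p.2})).toReal *
      (max (dist (x p.1) (x p.2)) ρ) ^ (-e)) ≤
      ∫⁻ q in (ix ρ ⁻¹' {p.1}) ×ˢ (ix ρ ⁻¹' {p.2}), ENNReal.ofReal (4 ^ e) * (edist q.1 q.2) ^ (-e) ∂(ν.prod ν) := by
    intro p hp
    obtain ⟨hp1, hp2⟩ := Finset.mem_product.1 hp
    have h2 : ∀ q ∈ (ix ρ ⁻¹' {p.1}) ×ˢ (ix ρ ⁻¹' {p.2}),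
        ENNReal.ofReal ((max (dist (x p.1) (x p.2)) ρ) ^ (-e)) ≤
          ENNReal.ofReal (4 ^ e) * (edist q.1 q.2) ^ (-e) := by
      rintro q ⟨hq1, hq2⟩
      have h3 : dist q.1 q.2 ≤ 4 * max (dist (x p.1) (x p.2)) ρ :=
        four_max hρ (by rw [hx _ hp1]; exact hq1) (by rw [hx _ hp2]; exact hq2)
      have h4 : edist q.1 q.2 ≤ ENNReal.ofReal (4 * max (dist (x p.1) (x p.2)) ρ) := by
        rw [edist_dist]
        exact ENNReal.ofReal_le_ofReal h3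
      have h5 : (ENNReal.ofReal (4 * max (dist (x p.1) (x p.2)) ρ)) ^ (-e) ≤ (edist q.1 q.2) ^ (-e) := by
        rw [ENNReal.rpow_neg, ENNReal.rpow_neg, ENNReal.inv_le_inv]
        exact ENNReal.rpow_le_rpow h4 he
      refine le_trans (le_of_eq ?_) (mul_le_mul_right h5 _)
      have hp4 : 0 < 4 * max (dist (x p.1) (x p.2)) ρ := by
        have := hpos p.1 p.2
        positivity
      rw [ENNReal.ofReal_rpow_of_pos hp4, ← ENNReal.ofReal_mul (by positivity),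
        Real.mul_rpow (by norm_num) (hpos _ _).le, ← mul_assoc, ← Real.rpow_add (by norm_num), add_neg_cancel,
        Real.rpow_zero, one_mul]
    calc ENNReal.ofReal ((ν (ix ρ ⁻¹' {p.1})).toReal * (ν (ix ρ ⁻¹' {p.2})).toReal *
        (max (dist (x p.1) (x p.2)) ρ) ^ (-e))
        = ∫⁻ _ in (ix ρ ⁻¹' {p.1}) ×ˢ (ix ρ ⁻¹' {p.2}), ENNReal.ofReal ((max (dist (x p.1) (x p.2)) ρ) ^ (-e))
            ∂(ν.prod ν) := by
          rw [setLIntegral_const, Measure.prod_prod, ENNReal.ofReal_mul (by positivity),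
            ENNReal.ofReal_mul (by positivity), ENNReal.ofReal_toReal (measure_ne_top _ _),
            ENNReal.ofReal_toReal (measure_ne_top _ _), mul_comm]
      _ ≤ _ := setLIntegral_mono (by exact (meas_F e).const_mul _) h2
  refine (Finset.sum_le_sum h1).trans ?_
  rw [← lintegral_biUnion_finset (s := V ×ˢ V) (t := fun p => (ix ρ ⁻¹' {p.1}) ×ˢ (ix ρ ⁻¹' {p.2}))]
  · refine (setLIntegral_le_lintegral _ _).trans ?_
    rw [lintegral_const_mul _ (meas_F e), lintegral_prod _ (meas_F e).aemeasurable,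
      ENNReal.ofReal_mul (by positivity)]
    exact mul_le_mul_right h _
  · intro p _ q _ hpq
    refine Set.disjoint_left.2 ?_
    rintro r ⟨h3, h4⟩ ⟨h5, h6⟩
    exact hpq (Prod.ext (h3.symm.trans h5) (h4.symm.trans h6))
  · intro p _
    exact (hms _).prod (hms _)

theorem wt_measure {b t : ℝ} (hb : 0 ≤ b) (ht : 0 ≤ t) {S : Set ℂ} (hS : IsCompact S) (ν : Measure ℂ)
    [IsProbabilityMeasure ν] (hν : ν Sᶜ = 0) {M0 M1 : ℝ} (hM0 : 0 ≤ M0) (hM1 : 0 ≤ M1)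
    (h0 : ∫⁻ x, ∫⁻ y, (edist x y) ^ (-b) ∂ν ∂ν ≤ ENNReal.ofReal M0)
    (h1 : ∫⁻ x, ∫⁻ y, (edist x y) ^ (-(b + t)) ∂ν ∂ν ≤ ENNReal.ofReal M1) :
    ∀ ρ : ℝ, 0 < ρ → Wt S b t (4 ^ b * M0) (4 ^ (b + t) * M1) ρ := by
  classical
  intro ρ hρ
  have hms : ∀ i : ℤ × ℤ, MeasurableSet (ix ρ ⁻¹' {i}) := fun i => meas_ix ρ (measurableSet_singleton i)
  obtain ⟨R, hR⟩ := hS.isBounded.subset_closedBall 0
  have hfin := fin_cells hρ hR
  have hex : ∀ u : ℤ × ℤ, ∃ z : ℂ, u ∈ ix ρ '' S → z ∈ S ∧ ix ρ z = u := by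
    intro u
    by_cases hu : u ∈ ix ρ '' S
    · obtain ⟨z, hz, h⟩ := hu
      exact ⟨z, fun _ => ⟨hz, h⟩⟩
    · exact ⟨0, fun h => absurd h hu⟩
  choose x hx using hex
  have hmem : ∀ u ∈ hfin.toFinset, x u ∈ S ∧ ix ρ (x u) = u := fun u hu => hx u (hfin.mem_toFinset.1 hu)
  refine ⟨hfin.toFinset, fun u => (ν (ix ρ ⁻¹' {u})).toReal, x, fun i _ => ENNReal.toReal_nonneg,
    fun i hi => (hmem i hi).1, ?_,
    energy hb ν hM0 h0 hρ _ x fun u hu => (hmem u hu).2,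
    energy (add_nonneg hb ht) ν hM1 h1 hρ _ x fun u hu => (hmem u hu).2⟩
  rw [← ENNReal.toReal_sum fun i _ => measure_ne_top _ _]
  rw [← measure_biUnion_finset (s := hfin.toFinset) (f := fun u => ix ρ ⁻¹' {u})]
  · have h2 : S ⊆ ⋃ b ∈ hfin.toFinset, ix ρ ⁻¹' {b} := by
      intro z hz
      simp only [Set.mem_iUnion, exists_prop]
      exact ⟨ix ρ z, hfin.mem_toFinset.2 ⟨z, hz, rfl⟩, rfl⟩
    have h3 : ν S = 1 := by
      have h4 := prob_compl_eq_zero_iff (μ := ν) hS.isClosed.measurableSet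
      exact h4.1 hν
    have h5 : ν (⋃ b ∈ hfin.toFinset, ix ρ ⁻¹' {b}) = 1 :=
      le_antisymm prob_le_one (h3 ▸ measure_mono h2)
    rw [h5, ENNReal.toReal_one]
  · intro p _ q _ hpq
    refine Set.disjoint_left.2 ?_
    intro r h3 h4
    exact hpq (h3.symm.trans h4)
  · intro p _
    exact hms p

end Pool.Agent.Zk17.HF
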